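import Pool.Agent.H94.T1.ZUDB
import Pool.Agent.H88.T1.ZUDA
import Pool.Agent.H70.RZT.S

/-!
# RZT, row UDBN: unit classes and unramified extensions
-/

set_option autoImplicit false

namespace Pool.RZT

open Polynomial NumberField Pool.HYP Pool.AVS Pool.TOW Pool.TOW.UD IsDedekindDomain Pool.T1
  Pool.T1.Zudb94

/-- UDBN. -/
theorem udbn : UDBNStmt := by
  intro K _ _ P ϖ L _ O ι hU f hf hns fO' hfO α hα husl
  have h : LV P ϖ (O.comap ι) := lv_of hU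
  have hcc : ∀ x : K, ι x ∈ O ↔ x ∈ O.comap ι := fun x => Iff.rfl
  apply us_of_usl h
  refine W2.ev2 K (O.comap ι) (algebraMap (𝓞 K) K ϖ) h.loc (jR h ϖ) (fV h f) α rfl (hf.map _) ?_
  intro γ hγ hirr hdvd
  have hin : ¬ InSq (jR h ϖ) (fV h f) γ := fun h' => hns (sing_of_insq h f γ hγ hirr h')
  refine ⟨hin, ?_⟩
  have hα' : IsCoprime α (oL (O.comap ι) (fV h f)) := by rw [oL_fV]; exact hα
  obtain ⟨n, hn⟩ := W.ev0 h.loc (jR h ϖ) (fV h f) γ rfl (hf.map _) hγ hirr hdvd hin α hα'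
  refine ⟨n, ?_, hn⟩
  -- an irreducible factor over the residue field of `O`
  have hγ1 : (rd O (γ.map (iV hcc))).Monic := (hγ.map _).map _
  have hdeg : 0 < (rd O (γ.map (iV hcc))).natDegree := by
    rw [rd, (hγ.map _).natDegree_map, hγ.natDegree_map, ← hγ.natDegree_map
      (IsLocalRing.residue (O.comap ι))]
    exact hirr.natDegree_pos
  have hnu : ¬ IsUnit (rd O (γ.map (iV hcc))) := by
    intro h'
    have := natDegree_eq_zero_of_isUnit h'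
    omega
  obtain ⟨q, hq, hqd⟩ := WfDvdMonoid.exists_irreducible_factor hnu hγ1.ne_zero
  have hq0 := hq.ne_zero
  obtain ⟨γ', hγ'1, hγ'm⟩ := H20.exists_monic_lift (O := O) (q * C q.leadingCoeff⁻¹)
    (monic_mul_leadingCoeff_inv hq0)
  have hirr' : Irreducible (rd O γ') := by
    rw [hγ'1]; exact irreducible_mul_leadingCoeff_inv.2 hq
  have hd' : rd O γ' ∣ rd O (γ.map (iV hcc)) := by
    rw [hγ'1]; exact H20.mul_right_dvd_of_unit hq0 hqd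
  have T := transfer h.loc (jR h ϖ) rfl hU.loc hcc (fV h f) γ hirr hdvd hin γ' hirr' hd' n α hn
  have hfe : fO' = (fV h f).map (iV hcc) := Zudb94.oL_inj (by rw [hfO, Zudb94.oL_ext, oL_fV])
  subst hfe
  have hfin : Finite ((𝓞 K) ⧸ P.asIdeal) := Ideal.finiteQuotientOfFreeOfNeBot _ P.ne_bot
  obtain ⟨fO2, hfO2, hInSq⟩ : ∃ fO : O[X], oL O fO = (fk K f).map ι ∧
      (∀ ϖ' : O, (ϖ' : L) = ι (algebraMap (𝓞 K) K ϖ) → ∀ γ : O[X], γ.Monic →
        Irreducible (rd O γ) → InSq ϖ' fO γ → Sing P.asIdeal f) :=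
    ⟨f.map (Zuda88.phi hU), Zuda88.oL_map hU f,
      fun ϖ' hϖ' γ _ hi hs => Zuda88.sing hfin hU hϖ' f γ hi hs⟩
  have hfe2 : fO2 = (fV h f).map (iV hcc) := Zudb94.oL_inj (by rw [hfO2, Zudb94.oL_ext, oL_fV])
  subst hfe2
  have hin' : ¬ InSq (iV hcc (jR h ϖ)) ((fV h f).map (iV hcc)) γ' :=
    fun h' => hns (hInSq _ rfl γ' hγ'm hirr' h')
  obtain ⟨s, p, hs, hd, hc⟩ := husl
  have hdvd' : rd O γ' ∣ rd O ((fV h f).map (iV hcc)) := by
    refine hd'.trans ?_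
    rw [Zudb94.rd_ext, Zudb94.rd_ext]
    exact Polynomial.map_dvd _ hdvd
  have EV := Pool.HYP.ev0 L O (ι (algebraMap (𝓞 K) K ϖ)) hU.loc (iV hcc (jR h ϖ))
    ((fV h f).map (iV hcc)) γ' rfl ((hf.map _).map _) hγ'm hirr' hdvd' hin'
  obtain ⟨j, a1, b1, k1, m1, ha1, hb1, hj, hab⟩ := EV.1 s hs
  have V2 : VAL O (iV hcc (jR h ϖ)) ((fV h f).map (iV hcc)) γ'
      (2 * (k1 : ℤ) - 2 * (m1 : ℤ)) (α.map ι) := by
    refine ⟨b1 ^ 2, a1 ^ 2 * p, 2 * m1, 2 * k1, ?_, ?_, by push_cast; ring, ?_⟩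
    · rw [EVZ.rd_pow]; exact hb1.pow_left
    · rw [EVZ.rd_mul, EVZ.rd_pow]
      exact ha1.pow_left.mul_left (hc.of_isCoprime_of_dvd_right hdvd')
    · have q1 := AdjoinRoot.mk_eq_mk.2 hab
      have q2 := AdjoinRoot.mk_eq_mk.2 hd
      rw [← AdjoinRoot.mk_eq_mk]
      simp only [oL, Polynomial.map_mul, Polynomial.map_pow, map_mul, map_pow, pow_mul] at q1 q2 ⊢
      exact Zudb94.alg_sq q1 q2
  have hn2 := EV.2 (α.map ι) n _ T V2
  rw [hn2]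
  exact ⟨(k1 : ℤ) - m1, by ring⟩

end Pool.RZT
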